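import Pool.Agent.Q231.OWA.Defs

/-!
# Elementary facts about OWA values
-/

namespace Pool.Agent.Q231.OWA

variable {n : ℕ}

/-- An upper set of `Fin n` is determined by its size. -/
theorem upper_eq (U : Finset (Fin n)) (h : ∀ a b : Fin n, a ≤ b → a ∈ U → b ∈ U) :
    U = Finset.univ.filter (fun j : Fin n => n ≤ j + U.card) := by
  ext j
  simp only [Finset.mem_filter, Finset.mem_univ, true_and]
  constructor
  · intro hj
    have h1 : Finset.Ici j ⊆ U := fun b hb => h j b (Finset.mem_Ici.1 hb) hj
    have h2 := Finset.card_le_card h1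
    rw [Fin.card_Ici] at h2
    omega
  · intro hj
    by_contra hjU
    have h1 : U ⊆ Finset.Ioi j := by
      intro b hb
      rw [Finset.mem_Ioi]
      by_contra hbj
      exact hjU (h b j (not_lt.1 hbj) hb)
    have h2 := Finset.card_le_card h1
    rw [Fin.card_Ioi] at h2
    have := j.2
    omega

/-- the sum of the last `k` weights -/
noncomputable def top (α : Fin n → ℝ) (k : ℕ) : ℝ :=
  ∑ j ∈ Finset.univ.filter (fun j : Fin n => n ≤ j + k), α j

/-- the number of voters whose satisfaction is larger than `t` -/
def above (s : Fin n → ℕ) (t : ℕ) : ℕ := (Finset.univ.filter (fun i => t < s i)).card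

theorem owa_eq (α : Fin n → ℝ) (s : Fin n → ℕ) (T : ℕ) (hT : ∀ i, s i ≤ T) :
    owa α s = ∑ t ∈ Finset.range T, top α (above s t) := by
  unfold owa
  have h1 : ∀ j : Fin n, (s (Tuple.sort s j) : ℝ) =
      ∑ t ∈ Finset.range T, if t < s (Tuple.sort s j) then (1 : ℝ) else 0 := by
    intro j
    rw [Finset.sum_boole]
    congr 1
    have : (Finset.range T).filter (fun t => t < s (Tuple.sort s j)) =
        Finset.range (s (Tuple.sort s j)) := by
      ext t
      simp only [Finset.mem_filter, Finset.mem_range]
      have := hT (Tuple.sort s j)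
      omega
    rw [this, Finset.card_range]
  simp_rw [h1, Finset.mul_sum]
  rw [Finset.sum_comm]
  refine Finset.sum_congr rfl fun t _ => ?_
  unfold top
  have hup := upper_eq (Finset.univ.filter (fun j : Fin n => t < s (Tuple.sort s j))) (by
    intro a b hab ha
    simp only [Finset.mem_filter, Finset.mem_univ, true_and] at ha ⊢
    exact lt_of_lt_of_le ha (Tuple.monotone_sort s hab))
  have hcard : (Finset.univ.filter (fun j : Fin n => t < s (Tuple.sort s j))).card = above s t := by
    unfold above
    refine Finset.card_bij (fun j _ => Tuple.sort s j) ?_ ?_ ?_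
    · intro j hj
      simpa using hj
    · intro a _ b _ h
      exact (Tuple.sort s).injective h
    · intro b hb
      refine ⟨(Tuple.sort s).symm b, ?_, by simp⟩
      simpa using hb
  rw [hcard] at hup
  rw [← hup, Finset.sum_filter]
  exact Finset.sum_congr rfl fun j _ => by split_ifs <;> simp

theorem top_succ (α : Fin n → ℝ) {k : ℕ} (hk : k < n) :
    top α (k + 1) = top α k + α ⟨n - 1 - k, by omega⟩ := by
  unfold top
  have : Finset.univ.filter (fun j : Fin n => n ≤ j + (k + 1)) =
      insert (⟨n - 1 - k, by omega⟩ : Fin n) (Finset.univ.filter (fun j : Fin n => n ≤ j + k)) := by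
    ext j
    simp only [Finset.mem_filter, Finset.mem_univ, true_and, Finset.mem_insert, Fin.ext_iff]
    omega
  rw [this, Finset.sum_insert, add_comm]
  simp only [Finset.mem_filter, Finset.mem_univ, true_and]
  omega

theorem top_mono {α : Fin n → ℝ} (hα : ∀ j, 0 ≤ α j) {k l : ℕ} (h : k ≤ l) :
    top α k ≤ top α l := by
  unfold top
  refine Finset.sum_le_sum_of_subset_of_nonneg ?_ fun j _ _ => hα j
  intro j hj
  simp only [Finset.mem_filter, Finset.mem_univ, true_and] at hj ⊢
  omega

theorem owa_mono {α : Fin n → ℝ} (hα : ∀ j, 0 ≤ α j) {s s' : Fin n → ℕ} (h : ∀ i, s i ≤ s' i) :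
    owa α s ≤ owa α s' := by
  have hT' : ∀ i, s' i ≤ ∑ i, s' i := fun i =>
    Finset.single_le_sum (f := s') (fun _ _ => Nat.zero_le _) (Finset.mem_univ i)
  rw [owa_eq α s _ (fun i => (h i).trans (hT' i)), owa_eq α s' _ hT']
  refine Finset.sum_le_sum fun t _ => top_mono hα ?_
  unfold above
  refine Finset.card_le_card ?_
  intro i hi
  simp only [Finset.mem_filter, Finset.mem_univ, true_and] at hi ⊢
  exact lt_of_lt_of_le hi (h i)

/-- The outcome of the sequential rule is unique. -/
theorem outcome_unique {E : Election n} {α : Fin n → ℝ} {w w' : ℕ → ℕ} (h : E.Outcome α w)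
    (h' : E.Outcome α w') : ∀ i < E.k, w i = w' i := by
  intro i
  induction i using Nat.strong_induction_on with
  | _ i ih =>
    intro hi
    have hs : ∀ v, E.sat w i v = E.sat w' i v := by
      intro v
      unfold Election.sat
      congr 1
      refine Finset.filter_congr fun j hj => ?_
      rw [ih j (Finset.mem_range.1 hj) (lt_trans (Finset.mem_range.1 hj) hi)]
    have hsc : ∀ c, E.score α w i c = E.score α w' i c := by
      intro c
      unfold Election.score
      simp only [hs]
    by_contra hne
    obtain ⟨h1, h2⟩ := h i hi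
    obtain ⟨h3, h4⟩ := h' i hi
    have a := h2 (w' i) h3 (Ne.symm hne)
    have b := h4 (w i) h1 hne
    rw [hsc, hsc] at a
    rcases a with a | a <;> rcases b with b | b
    · linarith
    · rw [b.1] at a; exact lt_irrefl _ a
    · rw [a.1] at b; exact lt_irrefl _ b
    · omega

/-- The sequential rule has an outcome. -/
theorem outcome_exists (E : Election n) (α : Fin n → ℝ) : ∃ w, E.Outcome α w := by
  have step : ∀ (w : ℕ → ℕ) (i : ℕ), i < E.k → ∃ c < E.C i, ∀ d < E.C i, d ≠ c →
      E.score α w i d < E.score α w i c ∨ (E.score α w i d = E.score α w i c ∧ c < d) := by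
    intro w i hi
    have hne : (Finset.range (E.C i)).Nonempty := ⟨0, Finset.mem_range.2 (E.pos i hi)⟩
    obtain ⟨m, hm, hmax⟩ := Finset.exists_max_image _ (fun c => E.score α w i c) hne
    have hne2 : ((Finset.range (E.C i)).filter
        (fun c => E.score α w i c = E.score α w i m)).Nonempty := ⟨m, by simpa using hm⟩
    obtain ⟨c, hc, hmin⟩ := Finset.exists_min_image _ (fun c => c) hne2
    rw [Finset.mem_filter, Finset.mem_range] at hc
    refine ⟨c, hc.1, fun d hd hdc => ?_⟩
    rw [hc.2]
    rcases lt_or_eq_of_le (hmax d (Finset.mem_range.2 hd)) with h | h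
    · exact Or.inl h
    · refine Or.inr ⟨h, ?_⟩
      have := hmin d (by rw [Finset.mem_filter, Finset.mem_range]; exact ⟨hd, h⟩)
      omega
  -- build the outcome
  have build : ∀ k ≤ E.k, ∃ w : ℕ → ℕ, ∀ i < k, w i < E.C i ∧ ∀ c < E.C i, c ≠ w i →
      E.score α w i c < E.score α w i (w i) ∨
        (E.score α w i c = E.score α w i (w i) ∧ w i < c) := by
    intro k
    induction k with
    | zero => exact fun _ => ⟨fun _ => 0, fun i hi => absurd hi (Nat.not_lt_zero i)⟩
    | succ k ih =>
      intro hk
      obtain ⟨w, hw⟩ := ih (by omega)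
      obtain ⟨c, hc, hc'⟩ := step w k (by omega)
      refine ⟨fun i => if i < k then w i else c, ?_⟩
      have hs : ∀ i ≤ k, ∀ v, E.sat (fun i => if i < k then w i else c) i v = E.sat w i v := by
        intro i hi v
        unfold Election.sat
        congr 1
        refine Finset.filter_congr fun j hj => ?_
        simp only [lt_of_lt_of_le (Finset.mem_range.1 hj) hi, if_true]
      have hsc : ∀ i ≤ k, ∀ d, E.score α (fun i => if i < k then w i else c) i d =
          E.score α w i d := by
        intro i hi d
        unfold Election.score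
        simp only [hs i hi]
      intro i hi
      rcases Nat.lt_succ_iff_lt_or_eq.1 hi with h | rfl
      · simp only [h, if_true]
        rw [show E.score α (fun i => if i < k then w i else c) i (w i) = E.score α w i (w i) from
          hsc i h.le _]
        refine ⟨(hw i h).1, fun d hd hdc => ?_⟩
        rw [hsc i h.le]
        exact (hw i h).2 d hd hdc
      · simp only [lt_irrefl, if_false]
        refine ⟨hc, fun d hd hdc => ?_⟩
        rw [hsc i le_rfl, hsc i le_rfl]
        exact hc' d hd hdc
  exact build E.k le_rfl

theorem sat_succ (E : Election n) (w : ℕ → ℕ) (i : ℕ) (v : Fin n) :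
    E.sat w (i + 1) v = E.sat w i v + if w i ∈ E.A i v then 1 else 0 := by
  unfold Election.sat
  rw [Finset.range_add_one, Finset.filter_insert]
  split_ifs with h
  · rw [Finset.card_insert_of_notMem (by simp)]
  · rfl

end Pool.Agent.Q231.OWA
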