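import Mathlib

/-!
# Sequential OWA rules and free-riding
-/

namespace Pool.Agent.Q231.OWA

/-- The OWA value `α · s` where the satisfactions `s v` are sorted increasingly. -/
noncomputable def owa {n : ℕ} (α : Fin n → ℝ) (s : Fin n → ℕ) : ℝ :=
  ∑ j, α j * (s (Tuple.sort s j) : ℝ)

/-- The conditions on the weights of an OWA rule: the first one is positive, none is negative. -/
def IsOWA {n : ℕ} (α : Fin n → ℝ) : Prop :=
  (∀ j, 0 ≤ α j) ∧ ∀ h : 0 < n, 0 < α ⟨0, h⟩

/-- An election with `n` voters: there are `k` issues `i = 0, ..., k - 1`; the candidates of the issue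
`i` are the numbers `c < C i`, numbered in the order used to break ties; `A i v` is the set of the
candidates approved by the voter `v` on the issue `i`. -/
structure Election (n : ℕ) where
  /-- the number of issues -/
  k : ℕ
  /-- the number of candidates of an issue -/
  C : ℕ → ℕ
  /-- the approval ballots -/
  A : ℕ → Fin n → Finset ℕ
  pos : ∀ i < k, 0 < C i
  sub : ∀ i v, ∀ c ∈ A i v, c < C i

variable {n : ℕ}

/-- The satisfaction of the voter `v` with the first `i` components of the outcome `w`. -/
def Election.sat (E : Election n) (w : ℕ → ℕ) (i : ℕ) (v : Fin n) : ℕ :=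
  ((Finset.range i).filter (fun j => w j ∈ E.A j v)).card

/-- The OWA value of `(w 0, ..., w (i - 1), c)`. -/
noncomputable def Election.score (E : Election n) (α : Fin n → ℝ) (w : ℕ → ℕ) (i c : ℕ) : ℝ :=
  owa α (fun v => E.sat w i v + if c ∈ E.A i v then 1 else 0)

/-- `w` is the outcome of the sequential OWA rule: every `w i` is the candidate with the largest
value, given the previous decisions, and among several such candidates the first one. -/
def Election.Outcome (E : Election n) (α : Fin n → ℝ) (w : ℕ → ℕ) : Prop :=
  ∀ i < E.k, w i < E.C i ∧ ∀ c < E.C i, c ≠ w i →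
    E.score α w i c < E.score α w i (w i) ∨ (E.score α w i c = E.score α w i (w i) ∧ w i < c)

/-- The voter `v` free-rides on the issue `i` in the election `E`, with outcome `w`, via the election
`E'`, with outcome `w'`. -/
structure FreeRiding (α : Fin n → ℝ) (E E' : Election n) (v : Fin n) (i : ℕ) (w w' : ℕ → ℕ) :
    Prop where
  lt : i < E.k
  k_eq : E'.k = E.k
  C_eq : E'.C = E.C
  A_eq : ∀ j u, (j ≠ i ∨ u ≠ v) → E'.A j u = E.A j u
  out : E.Outcome α w
  out' : E'.Outcome α w'
  mem : w i ∈ E.A i v
  notMem : w i ∉ E'.A i v
  same : w' i = w i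

/-- Free-riding is never harmful in elections with `n` voters: it does not decrease the true
satisfaction of the free-rider. -/
def NeverHarmful (n : ℕ) (α : Fin n → ℝ) : Prop :=
  ∀ (E E' : Election n) (v : Fin n) (i : ℕ) (w w' : ℕ → ℕ), FreeRiding α E E' v i w w' →
    E.sat w E.k v ≤ E.sat w' E.k v

end Pool.Agent.Q231.OWA
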