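import Pool.Agent.Q231.OWA.Neg

/-!
# Harmful free-riding: the examples
-/

set_option linter.unnecessarySeqFocus false

namespace Pool.Agent.Q231.OWA

variable {T : ℕ → ℝ}

/-- two neighbouring ranks with increasing weights -/
theorem ex_two (h : T 2 - T 1 < T 1 - T 0) :
    Ex T 2 1 (fun t => [[1, 0], [2, 0]].getD t [])
      (fun t => [[0, 0], [0, 1]].getD t [])
      (fun t => [[0, 1]].getD t [])
      (fun t => [[1, 0]].getD t [])
      (fun t => [true].getD t false) (fun t => [false].getD t false) := by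
  refine ⟨by norm_num, ?_, ?_, ?_, ?_, ?_, ?_, ?_, ?_, ?_, ?_, ?_, ?_, ?_, ?_⟩
  · intro t ht; interval_cases t <;> rfl
  · intro t ht; interval_cases t <;> rfl
  · intro t ht; interval_cases t <;> rfl
  · intro t ht; interval_cases t <;> rfl
  · intro t ht; interval_cases t <;> decide
  · intro t ht; interval_cases t <;> decide
  · intro t ht; interval_cases t <;> decide
  · intro t ht; interval_cases t <;> decide
  · intro t ht; interval_cases t <;> rfl
  · intro t ht; interval_cases t <;> rfl
  · intro t ht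
    interval_cases t <;> simp [W, Finset.sum_range_succ, List.countP_cons] <;> linarith
  · intro t ht
    interval_cases t <;> simp [W, Finset.sum_range_succ, List.countP_cons] <;> linarith
  · intro j
    rcases j with _ | _ | _ | _ | j <;> simp
  · decide

/-- three ranks with weights `p = q > r` -/
theorem ex_a (h0 : T 0 ≤ T 1) (h1 : T 1 ≤ T 2) (h2 : T 2 ≤ T 3)
    (hpq : T 3 - T 2 = T 2 - T 1) (hqr : T 1 - T 0 < T 2 - T 1) :
    Ex T 3 3 (fun t => [[1, 0, 1], [2, 0, 2], [2, 1, 3], [3, 2, 3]].getD t [])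
      (fun t => [[0, 0, 1], [1, 1, 1], [1, 2, 2], [1, 3, 3]].getD t [])
      (fun t => [[1, 0, 1], [0, 1, 1], [0, 1, 1]].getD t [])
      (fun t => [[1, 1, 0], [0, 0, 0], [1, 1, 0]].getD t [])
      (fun t => [false, false, true].getD t false) (fun t => [true, false, false].getD t false) := by
  refine ⟨by norm_num, ?_, ?_, ?_, ?_, ?_, ?_, ?_, ?_, ?_, ?_, ?_, ?_, ?_, ?_⟩
  · intro t ht; interval_cases t <;> rfl
  · intro t ht; interval_cases t <;> rfl
  · intro t ht; interval_cases t <;> rfl
  · intro t ht; interval_cases t <;> rfl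
  · intro t ht; interval_cases t <;> decide
  · intro t ht; interval_cases t <;> decide
  · intro t ht; interval_cases t <;> decide
  · intro t ht; interval_cases t <;> decide
  · intro t ht; interval_cases t <;> rfl
  · intro t ht; interval_cases t <;> rfl
  · intro t ht
    interval_cases t <;> simp [W, Finset.sum_range_succ, List.countP_cons] <;> linarith
  · intro t ht
    interval_cases t <;> simp [W, Finset.sum_range_succ, List.countP_cons] <;> linarith
  · intro j
    rcases j with _ | _ | _ | _ | j <;> simp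
  · decide

/-- three ranks with weights `p > q = r` -/
theorem ex_b (h0 : T 0 ≤ T 1) (h1 : T 1 ≤ T 2) (h2 : T 2 ≤ T 3)
    (hpq : T 2 - T 1 < T 3 - T 2) (hqr : T 1 - T 0 = T 2 - T 1) :
    Ex T 3 3 (fun t => [[1, 1, 2], [2, 2, 2], [3, 2, 2], [4, 2, 2]].getD t [])
      (fun t => [[0, 1, 2], [1, 1, 3], [2, 1, 3], [2, 2, 3]].getD t [])
      (fun t => [[1, 0, 1], [1, 0, 0], [1, 0, 0]].getD t [])
      (fun t => [[1, 1, 0], [0, 0, 0], [0, 1, 0]].getD t [])
      (fun t => [true, false, false].getD t false) (fun t => [false, false, true].getD t false) := by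
  refine ⟨by norm_num, ?_, ?_, ?_, ?_, ?_, ?_, ?_, ?_, ?_, ?_, ?_, ?_, ?_, ?_⟩
  · intro t ht; interval_cases t <;> rfl
  · intro t ht; interval_cases t <;> rfl
  · intro t ht; interval_cases t <;> rfl
  · intro t ht; interval_cases t <;> rfl
  · intro t ht; interval_cases t <;> decide
  · intro t ht; interval_cases t <;> decide
  · intro t ht; interval_cases t <;> decide
  · intro t ht; interval_cases t <;> decide
  · intro t ht; interval_cases t <;> rfl
  · intro t ht; interval_cases t <;> rfl
  · intro t ht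
    interval_cases t <;> simp [W, Finset.sum_range_succ, List.countP_cons] <;> linarith
  · intro t ht
    interval_cases t <;> simp [W, Finset.sum_range_succ, List.countP_cons] <;> linarith
  · intro j
    rcases j with _ | _ | _ | _ | j <;> simp
  · decide

/-- three ranks with weights `p ≥ q + r`, `p > q ≥ r > 0` -/
theorem ex_c1 (h0 : T 0 ≤ T 1) (h1 : T 1 ≤ T 2) (h2 : T 2 ≤ T 3)
    (hqr : T 1 - T 0 ≤ T 2 - T 1) (hpq : T 2 - T 1 < T 3 - T 2) (hs : T 2 - T 0 ≤ T 3 - T 2)
    (hr : T 0 < T 1) :
    Ex T 3 4 (fun t => [[1, 1, 1], [1, 2, 2], [2, 2, 2], [3, 2, 2], [4, 2, 3]].getD t [])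
      (fun t => [[0, 1, 1], [1, 1, 1], [1, 1, 2], [2, 1, 2], [2, 2, 2]].getD t [])
      (fun t => [[1, 0, 0], [0, 0, 1], [1, 0, 0], [0, 1, 0]].getD t [])
      (fun t => [[0, 1, 1], [1, 0, 0], [0, 0, 0], [1, 0, 1]].getD t [])
      (fun t => [true, true, false, true].getD t false) (fun t => [false, false, false, false].getD t false) := by
  refine ⟨by norm_num, ?_, ?_, ?_, ?_, ?_, ?_, ?_, ?_, ?_, ?_, ?_, ?_, ?_, ?_⟩
  · intro t ht; interval_cases t <;> rfl
  · intro t ht; interval_cases t <;> rfl
  · intro t ht; interval_cases t <;> rfl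
  · intro t ht; interval_cases t <;> rfl
  · intro t ht; interval_cases t <;> decide
  · intro t ht; interval_cases t <;> decide
  · intro t ht; interval_cases t <;> decide
  · intro t ht; interval_cases t <;> decide
  · intro t ht; interval_cases t <;> rfl
  · intro t ht; interval_cases t <;> rfl
  · intro t ht
    interval_cases t <;> simp [W, Finset.sum_range_succ, List.countP_cons] <;> linarith
  · intro t ht
    interval_cases t <;> simp [W, Finset.sum_range_succ, List.countP_cons] <;> linarith
  · intro j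
    rcases j with _ | _ | _ | _ | j <;> simp
  · decide

/-- three ranks with weights `p > q > r = 0` -/
theorem ex_c2 (h0 : T 0 ≤ T 1) (h1 : T 1 ≤ T 2) (h2 : T 2 ≤ T 3)
    (hqr : T 1 - T 0 ≤ T 2 - T 1) (hpq : T 2 - T 1 < T 3 - T 2) (hs : T 2 - T 0 ≤ T 3 - T 2)
    (hr : T 0 = T 1) (hq : T 1 < T 2) :
    Ex T 3 4 (fun t => [[1, 1, 1], [1, 2, 2], [2, 2, 2], [3, 2, 2], [4, 2, 3]].getD t [])
      (fun t => [[0, 1, 1], [1, 1, 1], [1, 1, 2], [2, 1, 2], [2, 2, 2]].getD t [])
      (fun t => [[1, 0, 0], [0, 0, 1], [1, 0, 0], [1, 0, 1]].getD t [])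
      (fun t => [[0, 1, 1], [1, 0, 0], [0, 0, 0], [0, 1, 0]].getD t [])
      (fun t => [true, true, false, false].getD t false) (fun t => [false, false, false, true].getD t false) := by
  refine ⟨by norm_num, ?_, ?_, ?_, ?_, ?_, ?_, ?_, ?_, ?_, ?_, ?_, ?_, ?_, ?_⟩
  · intro t ht; interval_cases t <;> rfl
  · intro t ht; interval_cases t <;> rfl
  · intro t ht; interval_cases t <;> rfl
  · intro t ht; interval_cases t <;> rfl
  · intro t ht; interval_cases t <;> decide
  · intro t ht; interval_cases t <;> decide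
  · intro t ht; interval_cases t <;> decide
  · intro t ht; interval_cases t <;> decide
  · intro t ht; interval_cases t <;> rfl
  · intro t ht; interval_cases t <;> rfl
  · intro t ht
    interval_cases t <;> simp [W, Finset.sum_range_succ, List.countP_cons] <;> linarith
  · intro t ht
    interval_cases t <;> simp [W, Finset.sum_range_succ, List.countP_cons] <;> linarith
  · intro j
    rcases j with _ | _ | _ | _ | j <;> simp
  · decide

/-- three ranks with weights `p > q = r = 0` -/
theorem ex_c3 (h0 : T 0 ≤ T 1) (h1 : T 1 ≤ T 2) (h2 : T 2 ≤ T 3)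
    (hqr : T 1 - T 0 ≤ T 2 - T 1) (hpq : T 2 - T 1 < T 3 - T 2) (hs : T 2 - T 0 ≤ T 3 - T 2)
    (hr : T 0 = T 1) (hq : T 1 = T 2) :
    Ex T 3 4 (fun t => [[1, 1, 1], [1, 2, 2], [2, 2, 2], [3, 2, 2], [4, 2, 3]].getD t [])
      (fun t => [[0, 1, 1], [1, 1, 1], [1, 1, 2], [2, 1, 2], [2, 2, 2]].getD t [])
      (fun t => [[0, 1, 1], [0, 0, 1], [1, 0, 0], [1, 0, 1]].getD t [])
      (fun t => [[1, 0, 0], [1, 0, 0], [0, 0, 0], [0, 1, 0]].getD t [])
      (fun t => [false, true, false, false].getD t false) (fun t => [true, false, false, true].getD t false) := by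
  refine ⟨by norm_num, ?_, ?_, ?_, ?_, ?_, ?_, ?_, ?_, ?_, ?_, ?_, ?_, ?_, ?_⟩
  · intro t ht; interval_cases t <;> rfl
  · intro t ht; interval_cases t <;> rfl
  · intro t ht; interval_cases t <;> rfl
  · intro t ht; interval_cases t <;> rfl
  · intro t ht; interval_cases t <;> decide
  · intro t ht; interval_cases t <;> decide
  · intro t ht; interval_cases t <;> decide
  · intro t ht; interval_cases t <;> decide
  · intro t ht; interval_cases t <;> rfl
  · intro t ht; interval_cases t <;> rfl
  · intro t ht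
    interval_cases t <;> simp [W, Finset.sum_range_succ, List.countP_cons] <;> linarith
  · intro t ht
    interval_cases t <;> simp [W, Finset.sum_range_succ, List.countP_cons] <;> linarith
  · intro j
    rcases j with _ | _ | _ | _ | j <;> simp
  · decide

/-- four ranks with weights `p ≥ q ≥ r ≥ t`, `p > r`, `q > t` -/
theorem ex_four (h1 : T 1 - T 0 ≤ T 2 - T 1)
    (h2 : T 2 - T 1 ≤ T 3 - T 2) (h3 : T 3 - T 2 ≤ T 4 - T 3) (hpr : T 2 - T 1 < T 4 - T 3)
    (hqt : T 1 - T 0 < T 3 - T 2) :
    Ex T 4 3 (fun t => [[1, 1, 1, 1], [1, 1, 1, 2], [2, 1, 2, 2], [3, 2, 2, 2]].getD t [])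
      (fun t => [[0, 1, 1, 1], [1, 1, 1, 1], [1, 2, 1, 2], [1, 2, 2, 3]].getD t [])
      (fun t => [[0, 0, 0, 1], [0, 1, 0, 1], [0, 0, 1, 1]].getD t [])
      (fun t => [[1, 0, 0, 0], [1, 0, 1, 0], [1, 1, 0, 0]].getD t [])
      (fun t => [false, true, true].getD t false) (fun t => [true, false, false].getD t false) := by
  refine ⟨by norm_num, ?_, ?_, ?_, ?_, ?_, ?_, ?_, ?_, ?_, ?_, ?_, ?_, ?_, ?_⟩
  · intro t ht; interval_cases t <;> rfl
  · intro t ht; interval_cases t <;> rfl
  · intro t ht; interval_cases t <;> rfl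
  · intro t ht; interval_cases t <;> rfl
  · intro t ht; interval_cases t <;> decide
  · intro t ht; interval_cases t <;> decide
  · intro t ht; interval_cases t <;> decide
  · intro t ht; interval_cases t <;> decide
  · intro t ht; interval_cases t <;> rfl
  · intro t ht; interval_cases t <;> rfl
  · intro t ht
    interval_cases t <;> simp [W, Finset.sum_range_succ, List.countP_cons] <;> linarith
  · intro t ht
    interval_cases t <;> simp [W, Finset.sum_range_succ, List.countP_cons] <;> linarith
  · intro j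
    rcases j with _ | _ | _ | _ | j <;> simp
  · decide

end Pool.Agent.Q231.OWA
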