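import Pool.Agent.Q231.OWA.Pos
import Pool.Agent.Q231.OWA.Exs

/-!
# Sequential OWA rules: when is free-riding never harmful?
-/

namespace Pool.Agent.Q231.OWA

variable {n : ℕ}

/-- the weights as a sequence -/
noncomputable def wt (α : Fin n → ℝ) (i : ℕ) : ℝ := if h : i < n then α ⟨i, h⟩ else 0

theorem wt_eq (α : Fin n → ℝ) (i : Fin n) : wt α i = α i := by simp [wt]

/-- The theorem about the examples, for a window of ranks `a, ..., a + m - 1`. -/
theorem window (α : Fin n → ℝ) (hα : ∀ j, 0 ≤ α j) (hN : NeverHarmful n α) (a m h : ℕ)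
    (hn : n = a + m + h) : ∃ T : ℕ → ℝ, (∀ c < m, T (c + 1) - T c = wt α (a + m - 1 - c)) ∧
      ∀ (N : ℕ) (L R P Q : ℕ → List ℕ) (f g : ℕ → Bool), ¬ Ex T m N L R P Q f g := by
  subst hn
  refine ⟨fun c => top α (h + c), ?_, fun N L R P Q f g hE => harmful_of_ex hα hE hN⟩
  intro c hc
  have := top_succ α (k := h + c) (by omega)
  have e : wt α (a + m - 1 - c) = α ⟨a + m + h - 1 - (h + c), by omega⟩ := by
    unfold wt
    rw [dif_pos (by omega)]
    congr 1
    apply Fin.ext
    change a + m - 1 - c = a + m + h - 1 - (h + c)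
    omega
  rw [e]
  change top α (h + (c + 1)) - top α (h + c) = _
  rw [← add_assoc, this]
  ring

theorem wt_nonneg {α : Fin n → ℝ} (hα : ∀ j, 0 ≤ α j) (i : ℕ) : 0 ≤ wt α i := by
  unfold wt
  split_ifs
  · exact hα _
  · exact le_rfl

/-- If free-riding is never harmful, then the weights do not increase. -/
theorem anti_of_never {α : Fin n → ℝ} (hα : ∀ j, 0 ≤ α j) (hN : NeverHarmful n α) (i : ℕ)
    (hi : i + 1 < n) : wt α (i + 1) ≤ wt α i := by
  obtain ⟨T, hT, hE⟩ := window α hα hN i 2 (n - i - 2) (by omega)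
  by_contra hlt
  refine hE _ _ _ _ _ _ _ (ex_two ?_)
  have h0 := hT 0 (by norm_num)
  have h1 := hT 1 (by norm_num)
  rw [show i + 2 - 1 - 0 = i + 1 by omega] at h0
  rw [show i + 2 - 1 - 1 = i by omega] at h1
  norm_num at h0 h1
  linarith

/-- the three weights of a window -/
theorem three_of_never {α : Fin n → ℝ} (hα : ∀ j, 0 ≤ α j) (hN : NeverHarmful n α) (a : ℕ)
    (ha : a + 2 < n) : ¬ (wt α a = wt α (a + 1) ∧ wt α (a + 2) < wt α (a + 1)) ∧
      ¬ (wt α (a + 1) < wt α a ∧ wt α (a + 2) = wt α (a + 1)) ∧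
      ¬ (wt α (a + 2) ≤ wt α (a + 1) ∧ wt α (a + 1) < wt α a ∧
        wt α (a + 1) + wt α (a + 2) ≤ wt α a) := by
  obtain ⟨T, hT, hE⟩ := window α hα hN a 3 (n - a - 3) (by omega)
  have h0 := hT 0 (by norm_num)
  have h1 := hT 1 (by norm_num)
  have h2 := hT 2 (by norm_num)
  rw [show a + 3 - 1 - 0 = a + 2 by omega] at h0
  rw [show a + 3 - 1 - 1 = a + 1 by omega] at h1
  rw [show a + 3 - 1 - 2 = a by omega] at h2
  norm_num at h0 h1 h2
  have n0 := wt_nonneg hα (a + 2)
  have n1 := wt_nonneg hα (a + 1)
  have n2 := wt_nonneg hα a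
  refine ⟨?_, ?_, ?_⟩
  · rintro ⟨h, h'⟩
    exact hE _ _ _ _ _ _ _ (ex_a (by linarith) (by linarith) (by linarith) (by linarith)
      (by linarith))
  · rintro ⟨h, h'⟩
    exact hE _ _ _ _ _ _ _ (ex_b (by linarith) (by linarith) (by linarith) (by linarith)
      (by linarith))
  · rintro ⟨h, h', h''⟩
    by_cases hr : T 0 < T 1
    · exact hE _ _ _ _ _ _ _ (ex_c1 (by linarith) (by linarith) (by linarith) (by linarith)
        (by linarith) (by linarith) hr)
    · have hr' : T 0 = T 1 := by linarith
      by_cases hq : T 1 < T 2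
      · exact hE _ _ _ _ _ _ _ (ex_c2 (by linarith) (by linarith) (by linarith) (by linarith)
          (by linarith) (by linarith) hr' hq)
      · exact hE _ _ _ _ _ _ _ (ex_c3 (by linarith) (by linarith) (by linarith) (by linarith)
          (by linarith) (by linarith) hr' (by linarith))

theorem four_of_never {α : Fin n → ℝ} (hα : ∀ j, 0 ≤ α j) (hN : NeverHarmful n α) (a : ℕ)
    (ha : a + 3 < n) : ¬ (wt α (a + 2) < wt α a ∧ wt α (a + 3) < wt α (a + 1)) := by
  obtain ⟨T, hT, hE⟩ := window α hα hN a 4 (n - a - 4) (by omega)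
  have h0 := hT 0 (by norm_num)
  have h1 := hT 1 (by norm_num)
  have h2 := hT 2 (by norm_num)
  have h3 := hT 3 (by norm_num)
  rw [show a + 4 - 1 - 0 = a + 3 by omega] at h0
  rw [show a + 4 - 1 - 1 = a + 2 by omega] at h1
  rw [show a + 4 - 1 - 2 = a + 1 by omega] at h2
  rw [show a + 4 - 1 - 3 = a by omega] at h3
  norm_num at h0 h1 h2 h3
  have a0 := anti_of_never hα hN a (by omega)
  have a1 := anti_of_never hα hN (a + 1) (by omega)
  have a2 := anti_of_never hα hN (a + 2) (by omega)
  rw [show a + 1 + 1 = a + 2 by omega] at a1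
  rw [show a + 2 + 1 = a + 3 by omega] at a2
  rintro ⟨h, h'⟩
  exact hE _ _ _ _ _ _ _ (ex_four (by linarith) (by linarith) (by linarith) (by linarith)
    (by linarith))

theorem const_of_steps {α : Fin n → ℝ} (h : ∀ i, i + 1 < n → wt α (i + 1) = wt α i) :
    ∀ i j : Fin n, α i = α j := by
  have key : ∀ i, i < n → wt α i = wt α 0 := by
    intro i
    induction i with
    | zero => intro _; rfl
    | succ i ih => intro hi; rw [h i hi, ih (by omega)]
  intro i j
  rw [← wt_eq α i, ← wt_eq α j, key i i.2, key j j.2]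

/-- Free-riding is never harmful for constant weights. -/
theorem never_const {α : Fin n → ℝ} (h : ∀ i j, α i = α j) : NeverHarmful n α := by
  refine never_of_inv fun v => ⟨_, inv_const (c := α v) (fun j => h j v) v⟩

theorem never_two {α : Fin 2 → ℝ} (hα : IsOWA α) (h : α 1 ≤ α 0) : NeverHarmful 2 α :=
  never_of_inv fun v => ⟨_, inv_two (hα.2 (by norm_num)) (hα.1 1) h v⟩

theorem never_three {α : Fin 3 → ℝ} (h1 : α 1 < α 0) (h2 : α 2 < α 1) (h3 : α 0 < α 1 + α 2) :
    NeverHarmful 3 α :=
  never_of_inv fun v => ⟨_, inv_three h1 h2 h3 v⟩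

/-- The weights for which free-riding is never harmful. -/
def Harmless (n : ℕ) (α : Fin n → ℝ) : Prop :=
  (∀ i j, α i = α j) ∨ (n = 2 ∧ ∀ i j, i ≤ j → α j ≤ α i) ∨
    (n = 3 ∧ (∀ i j, i < j → α j < α i) ∧ ∀ i j k, i < j → j < k → α i < α j + α k)

theorem never_iff {α : Fin n → ℝ} (hα : IsOWA α) : NeverHarmful n α ↔ Harmless n α := by
  constructor
  · intro hN
    have hanti := anti_of_never hα.1 hN
    by_cases hc : ∀ i, i + 1 < n → wt α (i + 1) = wt α i
    · exact Or.inl (const_of_steps hc)
    · push Not at hc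
      obtain ⟨i, hi, hne⟩ := hc
      have hlt : wt α (i + 1) < wt α i := lt_of_le_of_ne (hanti i hi) hne
      rcases (by omega : n = 2 ∨ n = 3 ∨ 4 ≤ n) with rfl | rfl | hn
      · refine Or.inr (Or.inl ⟨rfl, ?_⟩)
        intro j k hjk
        have h0 := hanti 0 (by norm_num)
        have e0 : wt α 0 = α 0 := wt_eq α 0
        have e1 : wt α (0 + 1) = α 1 := wt_eq α 1
        rcases (by omega : j = 0 ∨ j = 1) with rfl | rfl <;>
          rcases (by omega : k = 0 ∨ k = 1) with rfl | rfl
        · exact le_rfl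
        · linarith
        · exact absurd hjk (by decide)
        · exact le_rfl
      · refine Or.inr (Or.inr ⟨rfl, ?_⟩)
        obtain ⟨t1, t2, t3⟩ := three_of_never hα.1 hN 0 (by norm_num)
        have e0 : wt α 0 = α 0 := wt_eq α 0
        have e1 : wt α (0 + 1) = α 1 := wt_eq α 1
        have e2 : wt α (0 + 2) = α 2 := wt_eq α 2
        have h0 := hanti 0 (by norm_num)
        have h1 := hanti 1 (by norm_num)
        rw [show (1 + 1 : ℕ) = 0 + 2 by norm_num, show wt α 1 = α 1 from e1] at h1
        have hsome : ¬ (α 0 = α 1 ∧ α 2 = α 1) := by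
          rintro ⟨h, h'⟩
          rcases (by omega : i = 0 ∨ i = 1) with rfl | rfl
          · rw [e0, e1] at hlt; linarith
          · rw [show (1 + 1 : ℕ) = 0 + 2 by norm_num, e2, show wt α 1 = α 1 from e1] at hlt
            linarith
        rw [e0, e1, e2] at t1 t2 t3
        rw [e0, e1] at h0
        rw [e2] at h1
        have s1 : α 1 < α 0 := by
          by_contra h
          have : α 0 = α 1 := by linarith
          refine t1 ⟨this, lt_of_le_of_ne h1 fun h' => hsome ⟨this, h'⟩⟩
        have s2 : α 2 < α 1 := by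
          by_contra h
          exact t2 ⟨s1, by linarith⟩
        have s3 : α 0 < α 1 + α 2 := by
          by_contra h
          exact t3 ⟨h1, s1, by linarith⟩
        refine ⟨?_, ?_⟩
        · intro j k hjk
          rcases (by omega : j = 0 ∨ j = 1 ∨ j = 2) with rfl | rfl | rfl <;>
            rcases (by omega : k = 0 ∨ k = 1 ∨ k = 2) with rfl | rfl | rfl <;>
            first
            | exact absurd hjk (by decide)
            | linarith
        · intro j k l hjk hkl
          have : j = 0 ∧ k = 1 ∧ l = 2 := by omega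
          rw [this.1, this.2.1, this.2.2]
          exact s3
      · exfalso
        -- a window of length four that contains the drop
        obtain ⟨a, ha, ha1, ha2⟩ : ∃ a, a + 3 < n ∧ a ≤ i ∧ i + 1 ≤ a + 3 :=
          ⟨min i (n - 4), by omega, by omega, by omega⟩
        have b0 := hanti a (by omega)
        have b1 := hanti (a + 1) (by omega)
        have b2 := hanti (a + 2) (by omega)
        rw [show a + 1 + 1 = a + 2 by omega] at b1
        rw [show a + 2 + 1 = a + 3 by omega] at b2
        have hdrop : wt α (a + 3) < wt α a := by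
          rcases (by omega : i = a ∨ i = a + 1 ∨ i = a + 2) with rfl | rfl | rfl
          · linarith
          · rw [show a + 1 + 1 = a + 2 by omega] at hlt
            linarith
          · rw [show a + 2 + 1 = a + 3 by omega] at hlt
            linarith
        have hf := four_of_never hα.1 hN a ha
        by_cases c1 : wt α (a + 2) < wt α a
        · by_cases c2 : wt α (a + 3) < wt α (a + 1)
          · exact hf ⟨c1, c2⟩
          · exact (three_of_never hα.1 hN a (by omega)).2.1 ⟨by linarith, by linarith⟩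
        · have := (three_of_never hα.1 hN (a + 1) (by omega)).1
          rw [show a + 1 + 1 = a + 2 by omega, show a + 1 + 2 = a + 3 by omega] at this
          exact this ⟨by linarith, by linarith⟩
  · rintro (h | ⟨rfl, h⟩ | ⟨rfl, h, h'⟩)
    · exact never_const h
    · exact never_two hα (h 0 1 (by decide))
    · exact never_three (h 0 1 (by decide)) (h 1 2 (by decide)) (h' 0 1 2 (by decide) (by decide))

end Pool.Agent.Q231.OWA
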