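import Pool.Agent.Q231.OWA.Core

/-!
# Harmful free-riding: the general pattern of the examples

Only the satisfactions of `m` voters matter: the other ones are lower, and remain `0`, or higher, and
remain `10`.
-/

namespace Pool.Agent.Q231.OWA

variable {a m h : ℕ}

/-- the satisfactions given by the list `l` for the `m` active voters -/
def cfg (a m : ℕ) (l : List ℕ) (v : ℕ) : ℕ :=
  if v < a then 0 else if v < a + m then l.getD (v - a) 0 else 10

/-- the value in terms of the active voters; `T c` is the sum of the weights of the last `h + c`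
ranks -/
noncomputable def W (T : ℕ → ℝ) (l : List ℕ) : ℝ :=
  ∑ t ∈ Finset.range 10, T (l.countP (fun z => decide (t < z)))

theorem countP_eq (l : List ℕ) (t : ℕ) :
    (∑ j : Fin l.length, if t < l.getD j 0 then 1 else 0) = l.countP (fun z => decide (t < z)) := by
  induction l with
  | nil => simp
  | cons b l ih =>
    rw [List.countP_cons, ← ih]
    simp only [List.length_cons]
    rw [Fin.sum_univ_succ, add_comm]
    simp

theorem owa_cfg (α : Fin (a + m + h) → ℝ) (l : List ℕ) (hl : l.length = m)
    (hb : ∀ z ∈ l, z ≤ 10) :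
    owa α (fun v => cfg a m l v) = W (fun c => top α (h + c)) l := by
  subst hl
  have hb' : ∀ j, l.getD j 0 ≤ 10 := by
    intro j
    by_cases hj : j < l.length
    · rw [List.getD_eq_getElem _ _ hj]
      exact hb _ (List.getElem_mem hj)
    · rw [List.getD_eq_default _ _ (by omega)]
      omega
  rw [owa_eq α _ 10]
  · unfold W
    refine Finset.sum_congr rfl fun t ht => ?_
    rw [Finset.mem_range] at ht
    congr 1
    unfold above
    rw [Finset.card_filter, Fin.sum_univ_add, Fin.sum_univ_add]
    have e1 : (∑ i : Fin a, if t < cfg a l.length l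
        ((Fin.castAdd h (Fin.castAdd l.length i) : Fin (a + l.length + h)) : ℕ) then 1 else 0) =
        0 := by
      refine Finset.sum_eq_zero fun i _ => ?_
      simp [cfg]
    have e2 : (∑ i : Fin l.length, if t < cfg a l.length l
        ((Fin.castAdd h (Fin.natAdd a i) : Fin (a + l.length + h)) : ℕ) then 1 else 0) =
        l.countP (fun z => decide (t < z)) := by
      rw [← countP_eq]
      refine Finset.sum_congr rfl fun i _ => ?_
      simp [cfg]
    have e3 : (∑ i : Fin h, if t < cfg a l.length l
        ((Fin.natAdd (a + l.length) i : Fin (a + l.length + h)) : ℕ) then 1 else 0) = h := by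
      rw [Finset.sum_congr rfl (g := fun _ => 1)]
      · simp
      · intro i _
        have h1 : ¬ a + l.length + (i : ℕ) < a := by omega
        have h2 : ¬ a + l.length + (i : ℕ) < a + l.length := by omega
        simp only [cfg, Fin.val_natAdd, h1, h2, if_false, ht, if_true]
    rw [e1, e2, e3]
    omega
  · intro i
    unfold cfg
    split_ifs
    · omega
    · exact hb' _
    · exact le_rfl

/-- Examples.  `L t` and `R t` are the true and the reported satisfactions of the active voters
before the step `t`; in the step `t` the two candidates are approved by the active voters `j` with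
`P t j = 1`, respectively with `Q t j = 1`; `f t` and `g t` tell whether the second one wins. -/
structure Ex (T : ℕ → ℝ) (m N : ℕ) (L R P Q : ℕ → List ℕ) (f g : ℕ → Bool) : Prop where
  m_pos : 0 < m
  lenL : ∀ t ≤ N, (L t).length = m
  lenR : ∀ t ≤ N, (R t).length = m
  lenP : ∀ t < N, (P t).length = m
  lenQ : ∀ t < N, (Q t).length = m
  bP : ∀ t < N, ∀ z ∈ P t, z ≤ 1
  bQ : ∀ t < N, ∀ z ∈ Q t, z ≤ 1
  bL : ∀ t ≤ N, ∀ z ∈ L t, z ≤ 9
  bR : ∀ t ≤ N, ∀ z ∈ R t, z ≤ 9
  stepL : ∀ t < N, L (t + 1) = List.zipWith (· + ·) (L t) (if f t then Q t else P t)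
  stepR : ∀ t < N, R (t + 1) = List.zipWith (· + ·) (R t) (if g t then Q t else P t)
  cL : ∀ t < N, if f t then
      W T (List.zipWith (· + ·) (L t) (P t)) < W T (List.zipWith (· + ·) (L t) (Q t))
    else W T (List.zipWith (· + ·) (L t) (Q t)) ≤ W T (List.zipWith (· + ·) (L t) (P t))
  cR : ∀ t < N, if g t then
      W T (List.zipWith (· + ·) (R t) (P t)) < W T (List.zipWith (· + ·) (R t) (Q t))
    else W T (List.zipWith (· + ·) (R t) (Q t)) ≤ W T (List.zipWith (· + ·) (R t) (P t))
  init : ∀ j, (L 0).getD j 0 = (R 0).getD j 0 + if j = 0 then 1 else 0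
  fin : (R N).getD 0 0 + 1 < (L N).getD 0 0

/-- approval of the candidate `c` in the step `t` by the voter `v` -/
def appr (a m : ℕ) (P Q : ℕ → List ℕ) (t c v : ℕ) : Prop :=
  a ≤ v ∧ v < a + m ∧ (if c = 0 then P t else Q t).getD (v - a) 0 = 1

instance (a m : ℕ) (P Q : ℕ → List ℕ) (t c v : ℕ) : Decidable (appr a m P Q t c v) := by
  unfold appr; infer_instance

/-- the elections; `b` tells whether the manipulator approves on the first issue -/
def elec (a m h N : ℕ) (L P Q : ℕ → List ℕ) (b : Bool) : Election (a + m + h) where
  k := 10 + N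
  C := fun _ => 2
  A := fun i v => if i < 10 then
      (if i < cfg a m (L 0) v ∧ (i = 0 → (v : ℕ) = a → b = true) then {0} else ∅)
    else (Finset.range 2).filter (fun c => appr a m P Q (i - 10) c v)
  pos := fun _ _ => by norm_num
  sub := by
    intro i v c hc
    split_ifs at hc with h1 h2
    · rw [Finset.mem_singleton] at hc; omega
    · simp at hc
    · rw [Finset.mem_filter, Finset.mem_range] at hc; exact hc.1

/-- the outcomes -/
def outc (f : ℕ → Bool) (i : ℕ) : ℕ := if i < 10 then 0 else if f (i - 10) then 1 else 0

theorem getD_zip {l z : List ℕ} (h : l.length = z.length) (j : ℕ) :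
    (List.zipWith (· + ·) l z).getD j 0 = l.getD j 0 + z.getD j 0 := by
  by_cases hj : j < l.length
  · rw [List.getD_eq_getElem _ _ (by simpa using ⟨hj, h ▸ hj⟩), List.getElem_zipWith,
      List.getD_eq_getElem _ _ hj, List.getD_eq_getElem _ _ (h ▸ hj)]
  · rw [List.getD_eq_default _ _ (by simp; omega), List.getD_eq_default _ _ (by omega),
      List.getD_eq_default _ _ (by omega)]

theorem cfg_zip {l z : List ℕ} (h : l.length = z.length) (v : ℕ) (hz : ∀ x ∈ z, x ≤ 1) :
    cfg a m (List.zipWith (· + ·) l z) v =
      cfg a m l v + if a ≤ v ∧ v < a + m ∧ z.getD (v - a) 0 = 1 then 1 else 0 := by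
  unfold cfg
  by_cases h1 : v < a
  · simp [h1]
  · by_cases h2 : v < a + m
    · simp only [h1, h2, if_false, if_true, true_and, not_lt.1 h1]
      rw [getD_zip h]
      have : z.getD (v - a) 0 ≤ 1 := by
        by_cases hj : v - a < z.length
        · rw [List.getD_eq_getElem _ _ hj]
          exact hz _ (List.getElem_mem hj)
        · rw [List.getD_eq_default _ _ (by omega)]
          omega
      split_ifs <;> omega
    · simp [h1, h2]

theorem sat_build (L P Q : ℕ → List ℕ) (f : ℕ → Bool) (N : ℕ) (b : Bool) (i : ℕ) (hi : i < 10)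
    (v : Fin (a + m + h)) (hv : (v : ℕ) = a → 0 < cfg a m (L 0) v) :
    (elec a m h N L P Q b).sat (outc f) (i + 1) v =
      min (i + 1) (cfg a m (L 0) v) - if (v : ℕ) = a ∧ b = false then 1 else 0 := by
  induction i with
  | zero =>
    rw [sat_succ]
    have : (elec a m h N L P Q b).sat (outc f) 0 v = 0 := by
      simp [Election.sat]
    rw [this]
    simp only [elec, outc, show (0 : ℕ) < 10 by norm_num, if_true, zero_add, forall_const]
    by_cases hva : (v : ℕ) = a
    · have hpos := hv hva
      rw [hva] at hpos
      cases b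
      · simp only [hva, forall_const, Bool.false_eq_true, and_false, if_false, Finset.notMem_empty,
          true_and, if_true]
        omega
      · simp only [hva, forall_const, and_true, reduceCtorEq, and_false, if_false]
        simp [hpos]
        omega
    · simp only [hva, false_and, if_false, IsEmpty.forall_iff, and_true, Nat.sub_zero]
      split_ifs with h1 h2 h2
      · omega
      · simp at h2
      · simp at h2
      · omega
  | succ i ih =>
    rw [sat_succ, ih (by omega)]
    have e : (outc f (i + 1) ∈ (elec a m h N L P Q b).A (i + 1) v) ↔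
        i + 1 < cfg a m (L 0) v := by
      simp only [elec, outc, hi, if_true]
      by_cases h1 : i + 1 < cfg a m (L 0) v
      · simp [h1]
      · simp [h1]
    by_cases h1 : i + 1 < cfg a m (L 0) v
    · rw [if_pos (e.2 h1)]
      split_ifs with h2
      · have := hv h2.1
        omega
      · omega
    · rw [if_neg (fun h => h1 (e.1 h))]
      split_ifs with h2
      · have := hv h2.1
        omega
      · omega

theorem sat_step (L P Q S : ℕ → List ℕ) (f : ℕ → Bool) (N : ℕ) (b : Bool)
    (hS0 : ∀ v : Fin (a + m + h), (elec a m h N L P Q b).sat (outc f) 10 v = cfg a m (S 0) v)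
    (hlen : ∀ t ≤ N, (S t).length = m) (lenP : ∀ t < N, (P t).length = m)
    (lenQ : ∀ t < N, (Q t).length = m) (bP : ∀ t < N, ∀ z ∈ P t, z ≤ 1)
    (bQ : ∀ t < N, ∀ z ∈ Q t, z ≤ 1)
    (hS : ∀ t < N, S (t + 1) = List.zipWith (· + ·) (S t) (if f t then Q t else P t)) :
    ∀ t ≤ N, ∀ v : Fin (a + m + h),
      (elec a m h N L P Q b).sat (outc f) (10 + t) v = cfg a m (S t) v := by
  intro t
  induction t with
  | zero => intro _ v; exact hS0 v
  | succ t ih =>
    intro ht v
    rw [show 10 + (t + 1) = (10 + t) + 1 by omega, sat_succ, ih (by omega) v, hS t (by omega)]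
    have e0 : ¬ 10 + t < 10 := by omega
    have e1 : 10 + t - 10 = t := by omega
    by_cases hf : f t = true
    · rw [if_pos hf, cfg_zip (by rw [hlen t (by omega), lenQ t (by omega)]) v (bQ t (by omega))]
      congr 1
      simp only [elec, outc, e0, if_false, e1, hf, if_true]
      refine if_congr ?_ rfl rfl
      simp [appr]
    · rw [if_neg hf, cfg_zip (by rw [hlen t (by omega), lenP t (by omega)]) v (bP t (by omega))]
      congr 1
      simp only [elec, outc, e0, if_false, e1, hf]
      refine if_congr ?_ rfl rfl
      simp [appr]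

/-- The outcome of the election. -/
theorem outcome_ex {α : Fin (a + m + h) → ℝ} (hα : ∀ j, 0 ≤ α j) (L P Q S : ℕ → List ℕ)
    (f : ℕ → Bool) (N : ℕ) (b : Bool)
    (hS0 : ∀ v : Fin (a + m + h), (elec a m h N L P Q b).sat (outc f) 10 v = cfg a m (S 0) v)
    (hlen : ∀ t ≤ N, (S t).length = m) (lenP : ∀ t < N, (P t).length = m)
    (lenQ : ∀ t < N, (Q t).length = m) (bP : ∀ t < N, ∀ z ∈ P t, z ≤ 1)
    (bQ : ∀ t < N, ∀ z ∈ Q t, z ≤ 1) (bS : ∀ t ≤ N, ∀ z ∈ S t, z ≤ 9)
    (hS : ∀ t < N, S (t + 1) = List.zipWith (· + ·) (S t) (if f t then Q t else P t))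
    (cS : ∀ t < N, if f t then
      W (fun c => top α (h + c)) (List.zipWith (· + ·) (S t) (P t)) <
        W (fun c => top α (h + c)) (List.zipWith (· + ·) (S t) (Q t))
    else W (fun c => top α (h + c)) (List.zipWith (· + ·) (S t) (Q t)) ≤
      W (fun c => top α (h + c)) (List.zipWith (· + ·) (S t) (P t))) :
    (elec a m h N L P Q b).Outcome α (outc f) := by
  intro i hi
  have hi' : i < 10 + N := hi
  refine ⟨?_, ?_⟩
  · simp only [elec, outc]
    split_ifs <;> omega
  intro c hc hne
  have hc' : c < 2 := hc
  by_cases h10 : i < 10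
  · -- a building issue
    have hw : outc f i = 0 := by simp [outc, h10]
    rw [hw] at hne ⊢
    have hc1 : c = 1 := by omega
    subst hc1
    have hle : (elec a m h N L P Q b).score α (outc f) i 1 ≤
        (elec a m h N L P Q b).score α (outc f) i 0 := by
      unfold Election.score
      refine owa_mono hα fun v => ?_
      have : (1 : ℕ) ∉ (elec a m h N L P Q b).A i v := by
        simp only [elec, h10, if_true]
        split_ifs <;> simp
      rw [if_neg this]
      omega
    rcases lt_or_eq_of_le hle with h | h
    · exact Or.inl h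
    · exact Or.inr ⟨h, by omega⟩
  · obtain ⟨t, rfl⟩ : ∃ t, i = 10 + t := ⟨i - 10, by omega⟩
    have ht : t < N := by omega
    have e1 : 10 + t - 10 = t := by omega
    have hsat := sat_step L P Q S f N b hS0 hlen lenP lenQ bP bQ hS t ht.le
    have b10 : ∀ z : List ℕ, (∀ x ∈ z, x ≤ 1) → ∀ x ∈ List.zipWith (· + ·) (S t) z, x ≤ 10 := by
      intro z hz x hx
      obtain ⟨j, hj, rfl⟩ := List.getElem_of_mem hx
      rw [List.length_zipWith, lt_min_iff] at hj
      rw [List.getElem_zipWith]
      have h1 := bS t ht.le _ (List.getElem_mem hj.1)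
      have h2 := hz _ (List.getElem_mem hj.2)
      omega
    have hsc0 : (elec a m h N L P Q b).score α (outc f) (10 + t) 0 =
        W (fun c => top α (h + c)) (List.zipWith (· + ·) (S t) (P t)) := by
      unfold Election.score
      rw [← owa_cfg α _ (by rw [List.length_zipWith, hlen t ht.le, lenP t ht]; simp)
        (b10 _ (bP t ht))]
      congr 1
      funext v
      rw [hsat v, cfg_zip (by rw [hlen t ht.le, lenP t ht]) v (bP t ht)]
      congr 1
      simp only [elec, h10, if_false, e1]
      refine if_congr ?_ rfl rfl
      simp [appr]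
    have hsc1 : (elec a m h N L P Q b).score α (outc f) (10 + t) 1 =
        W (fun c => top α (h + c)) (List.zipWith (· + ·) (S t) (Q t)) := by
      unfold Election.score
      rw [← owa_cfg α _ (by rw [List.length_zipWith, hlen t ht.le, lenQ t ht]; simp)
        (b10 _ (bQ t ht))]
      congr 1
      funext v
      rw [hsat v, cfg_zip (by rw [hlen t ht.le, lenQ t ht]) v (bQ t ht)]
      congr 1
      simp only [elec, h10, if_false, e1]
      refine if_congr ?_ rfl rfl
      simp [appr]
    have hcS := cS t ht
    by_cases hf : f t = true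
    · rw [if_pos hf] at hcS
      have hw : outc f (10 + t) = 1 := by simp [outc, hf]
      rw [hw] at hne ⊢
      have hc0 : c = 0 := by omega
      subst hc0
      rw [hsc0, hsc1]
      exact Or.inl hcS
    · rw [if_neg hf] at hcS
      have hw : outc f (10 + t) = 0 := by simp [outc, hf]
      rw [hw] at hne ⊢
      have hc1 : c = 1 := by omega
      subst hc1
      rw [hsc0, hsc1]
      rcases lt_or_eq_of_le hcS with h | h
      · exact Or.inl h
      · exact Or.inr ⟨h, by omega⟩

/-- An example gives harmful free-riding. -/
theorem harmful_of_ex {α : Fin (a + m + h) → ℝ} (hα : ∀ j, 0 ≤ α j) {N : ℕ}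
    {L R P Q : ℕ → List ℕ} {f g : ℕ → Bool}
    (hE : Ex (fun c => top α (h + c)) m N L R P Q f g) : ¬ NeverHarmful (a + m + h) α := by
  intro hnh
  have hm := hE.m_pos
  set v0 : Fin (a + m + h) := ⟨a, by omega⟩ with hv0
  have hR0 : ∀ v : ℕ, v < a + m + h → cfg a m (L 0) v = cfg a m (R 0) v + if v = a then 1 else 0 := by
    intro v hv
    unfold cfg
    by_cases h1 : v < a
    · have : v ≠ a := by omega
      simp [h1, this]
    · by_cases h2 : v < a + m
      · simp only [h1, h2, if_false, if_true]
        rw [hE.init]
        congr 1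
        refine if_congr ?_ rfl rfl
        omega
      · have : v ≠ a := by omega
        simp [h1, h2, this]
  have hpos : ∀ v : Fin (a + m + h), (v : ℕ) = a → 0 < cfg a m (L 0) v := by
    intro v hv
    rw [hR0 v v.2]
    simp [hv]
  have hle10 : ∀ v : Fin (a + m + h), cfg a m (L 0) v ≤ 10 := by
    intro v
    unfold cfg
    split_ifs
    · omega
    · by_cases hj : (v : ℕ) - a < (L 0).length
      · rw [List.getD_eq_getElem _ _ hj]
        have := hE.bL 0 (Nat.zero_le _) _ (List.getElem_mem hj)
        omega
      · rw [List.getD_eq_default _ _ (by omega)]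
        omega
    · exact le_rfl
  have s1 : ∀ v : Fin (a + m + h), (elec a m h N L P Q true).sat (outc f) 10 v =
      cfg a m (L 0) v := by
    intro v
    rw [show (10 : ℕ) = 9 + 1 by norm_num, sat_build L P Q f N true 9 (by norm_num) v (hpos v)]
    have := hle10 v
    simp
    omega
  have s2 : ∀ v : Fin (a + m + h), (elec a m h N L P Q false).sat (outc g) 10 v =
      cfg a m (R 0) v := by
    intro v
    rw [show (10 : ℕ) = 9 + 1 by norm_num, sat_build L P Q g N false 9 (by norm_num) v (hpos v)]
    have h1 := hle10 v
    have h2 := hR0 v v.2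
    simp only [and_true]
    split_ifs at h2 ⊢ <;> omega
  have o1 := outcome_ex hα L P Q L f N true s1 hE.lenL hE.lenP hE.lenQ hE.bP hE.bQ hE.bL
    hE.stepL hE.cL
  have o2 := outcome_ex hα L P Q R g N false s2 hE.lenR hE.lenP hE.lenQ hE.bP hE.bQ hE.bR
    hE.stepR hE.cR
  have hfr : FreeRiding α (elec a m h N L P Q true) (elec a m h N L P Q false) v0 0 (outc f)
      (outc g) := by
    refine ⟨?_, rfl, rfl, ?_, o1, o2, ?_, ?_, ?_⟩
    · change 0 < 10 + N; omega
    · intro j u hju
      simp only [elec]
      by_cases hj : j < 10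
      · simp only [hj, if_true]
        refine if_congr ?_ rfl rfl
        refine and_congr_right fun _ => ?_
        constructor
        · intro _ _ _
          trivial
        · intro _ h0 hu
          rcases hju with h | h
          · exact absurd h0 h
          · exact absurd (Fin.ext (by rw [hu])) h
      · simp only [hj, if_false]
    · have := hpos v0 rfl
      simp only [elec, outc, show (0 : ℕ) < 10 by norm_num, if_true]
      simp [this]
    · simp only [elec, outc, show (0 : ℕ) < 10 by norm_num, if_true]
      simp [hv0]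
    · simp [outc]
  have h1 := hnh _ _ _ _ _ _ hfr
  -- the true satisfaction after the free-riding
  have h2 : (elec a m h N L P Q true).sat (outc g) (10 + N) v0 =
      (elec a m h N L P Q false).sat (outc g) (10 + N) v0 + 1 := by
    unfold Election.sat
    have : (Finset.range (10 + N)).filter
        (fun j => outc g j ∈ (elec a m h N L P Q true).A j v0) =
        insert 0 ((Finset.range (10 + N)).filter
          (fun j => outc g j ∈ (elec a m h N L P Q false).A j v0)) := by
      ext j
      simp only [Finset.mem_filter, Finset.mem_range, Finset.mem_insert]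
      by_cases hj : j = 0
      · subst hj
        have e1 : outc g 0 = outc f 0 := by simp [outc]
        rw [e1]
        simp only [hfr.mem, and_true, true_or, iff_true]
        omega
      · rw [hfr.A_eq j v0 (Or.inl hj)]
        simp [hj]
    rw [this, Finset.card_insert_of_notMem]
    simp only [Finset.mem_filter, not_and]
    intro _
    have e1 : outc g 0 = outc f 0 := by simp [outc]
    rw [e1]
    exact hfr.notMem
  have h3 := sat_step L P Q L f N true s1 hE.lenL hE.lenP hE.lenQ hE.bP hE.bQ hE.stepL N le_rfl v0
  have h4 := sat_step L P Q R g N false s2 hE.lenR hE.lenP hE.lenQ hE.bP hE.bQ hE.stepR N le_rfl v0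
  change (elec a m h N L P Q true).sat (outc f) (10 + N) v0 ≤
    (elec a m h N L P Q true).sat (outc g) (10 + N) v0 at h1
  rw [h2, h3, h4] at h1
  have c1 : ∀ l, cfg a m l (v0 : ℕ) = l.getD 0 0 := by
    intro l
    simp [cfg, hv0, hm]
  rw [c1, c1] at h1
  have := hE.fin
  omega

end Pool.Agent.Q231.OWA
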