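import Pool.Agent.Q231.OWA.Core

/-!
# Weights for which free-riding is never harmful
-/

namespace Pool.Agent.Q231.OWA

variable {n : ℕ}

/-- The true satisfaction of the free-rider. -/
theorem sat_true {α : Fin n → ℝ} {E E' : Election n} {v : Fin n} {i : ℕ} {w w' : ℕ → ℕ}
    (h : FreeRiding α E E' v i w w') : E.sat w' E.k v = E'.sat w' E.k v + 1 := by
  unfold Election.sat
  have : (Finset.range E.k).filter (fun j => w' j ∈ E.A j v) =
      insert i ((Finset.range E.k).filter (fun j => w' j ∈ E'.A j v)) := by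
    ext j
    simp only [Finset.mem_filter, Finset.mem_range, Finset.mem_insert]
    by_cases hj : j = i
    · subst hj
      simp [h.lt, h.same, h.mem]
    · rw [h.A_eq j v (Or.inl hj)]
      simp [hj]
  rw [this, Finset.card_insert_of_notMem]
  simp only [Finset.mem_filter, not_and]
  intro _
  rw [h.same]
  exact h.notMem

/-- Before the issue of the free-riding, both runs agree. -/
theorem agree {α : Fin n → ℝ} {E E' : Election n} {v : Fin n} {i : ℕ} {w w' : ℕ → ℕ}
    (h : FreeRiding α E E' v i w w') : ∀ j < i, w j = w' j := by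
  intro j
  induction j using Nat.strong_induction_on with
  | _ j ih =>
    intro hj
    have hs : ∀ u, E.sat w j u = E'.sat w' j u := by
      intro u
      unfold Election.sat
      congr 1
      refine Finset.filter_congr fun l hl => ?_
      have hl' := Finset.mem_range.1 hl
      rw [ih l hl' (lt_trans hl' hj), h.A_eq l u (Or.inl (by omega))]
    have hsc : ∀ c, E.score α w j c = E'.score α w' j c := by
      intro c
      unfold Election.score
      simp only [hs, h.A_eq j _ (Or.inl (ne_of_lt hj))]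
    by_contra hne
    have hjk : j < E.k := lt_trans hj h.lt
    obtain ⟨h1, h2⟩ := h.out j hjk
    obtain ⟨h3, h4⟩ := h.out' j (by rw [h.k_eq]; exact hjk)
    rw [h.C_eq] at h3 h4
    have a := h2 (w' j) h3 (Ne.symm hne)
    have b := h4 (w j) h1 hne
    rw [hsc, hsc] at a
    rcases a with a | a <;> rcases b with b | b
    · linarith
    · rw [b.1] at a; exact lt_irrefl _ a
    · rw [a.1] at b; exact lt_irrefl _ b
    · omega

/-- An invariant of pairs of runs. -/
structure Inv (α : Fin n → ℝ) (v : Fin n) (R : (Fin n → ℕ) → (Fin n → ℕ) → Prop) : Prop where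
  start : ∀ s s' : Fin n → ℕ, (∀ u, s u = s' u + if u = v then 1 else 0) → R s s'
  step : ∀ s s' : Fin n → ℕ, R s s' → ∀ X Y : Fin n → ℕ, (∀ u, X u ≤ 1) → (∀ u, Y u ≤ 1) →
    owa α (fun u => s u + Y u) ≤ owa α (fun u => s u + X u) →
    owa α (fun u => s' u + X u) ≤ owa α (fun u => s' u + Y u) →
    (X = Y ∨ ¬ (owa α (fun u => s u + Y u) = owa α (fun u => s u + X u) ∧
      owa α (fun u => s' u + X u) = owa α (fun u => s' u + Y u))) →
    R (fun u => s u + X u) (fun u => s' u + Y u)
  fin : ∀ s s', R s s' → s v ≤ s' v + 1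

theorem never_of_inv {α : Fin n → ℝ} (h : ∀ v, ∃ R, Inv α v R) : NeverHarmful n α := by
  intro E E' v i w w' hf
  obtain ⟨R, hR⟩ := h v
  rw [sat_true hf]
  refine hR.fin (E.sat w E.k) (E'.sat w' E.k) ?_
  have key : ∀ d, i + 1 + d ≤ E.k → R (E.sat w (i + 1 + d)) (E'.sat w' (i + 1 + d)) := by
    intro d
    induction d with
    | zero =>
      intro _
      refine hR.start _ _ fun u => ?_
      rw [add_zero, sat_succ, sat_succ]
      have h0 : E.sat w i u = E'.sat w' i u := by
        unfold Election.sat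
        congr 1
        refine Finset.filter_congr fun l hl => ?_
        have hl' := Finset.mem_range.1 hl
        rw [agree hf l hl', hf.A_eq l u (Or.inl (by omega))]
      rw [h0, hf.same]
      by_cases hu : u = v
      · subst hu
        rw [if_pos hf.mem, if_neg hf.notMem]
        simp
      · rw [hf.A_eq i u (Or.inr hu)]
        simp [hu]
    | succ d ih =>
      intro hd
      have ih := ih (by omega)
      set j := i + 1 + d with hj
      have hjk : j < E.k := by omega
      have hA : ∀ u, E'.A j u = E.A j u := fun u => hf.A_eq j u (Or.inl (by omega))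
      have e1 : E.sat w (i + 1 + (d + 1)) = fun u => E.sat w j u + if w j ∈ E.A j u then 1 else 0 := by
        funext u
        rw [show i + 1 + (d + 1) = j + 1 by omega, sat_succ]
      have e2 : E'.sat w' (i + 1 + (d + 1)) =
          fun u => E'.sat w' j u + if w' j ∈ E.A j u then 1 else 0 := by
        funext u
        rw [show i + 1 + (d + 1) = j + 1 by omega, sat_succ, hA]
      rw [e1, e2]
      obtain ⟨h1, h2⟩ := hf.out j hjk
      obtain ⟨h3, h4⟩ := hf.out' j (by rw [hf.k_eq]; exact hjk)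
      rw [hf.C_eq] at h3 h4
      unfold Election.score at h2 h4
      simp only [hA] at h4
      refine hR.step _ _ ih _ _ (fun u => by split_ifs <;> simp) (fun u => by split_ifs <;> simp)
        ?_ ?_ ?_
      · by_cases hw : w' j = w j
        · rw [hw]
        · rcases h2 (w' j) h3 hw with h | h
          · exact h.le
          · exact h.1.le
      · by_cases hw : w j = w' j
        · rw [hw]
        · rcases h4 (w j) h1 hw with h | h
          · exact h.le
          · exact h.1.le
      · by_cases hw : w' j = w j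
        · left; rw [hw]
        · right
          rintro ⟨ha, hb⟩
          rcases h2 (w' j) h3 hw with h | h
          · exact absurd ha (ne_of_lt h)
          · rcases h4 (w j) h1 (Ne.symm hw) with h' | h'
            · exact absurd hb (ne_of_lt h')
            · omega
  have hlt := hf.lt
  have := key (E.k - (i + 1)) (by omega)
  rwa [show i + 1 + (E.k - (i + 1)) = E.k by omega] at this

/-! ### Constant weights -/

theorem owa_const {α : Fin n → ℝ} {c : ℝ} (hα : ∀ j, α j = c) (s : Fin n → ℕ) :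
    owa α s = c * ((∑ u, s u : ℕ) : ℝ) := by
  unfold owa
  simp_rw [hα]
  rw [← Finset.mul_sum]
  push_cast
  rw [Equiv.sum_comp (Tuple.sort s) (fun u => (s u : ℝ))]

theorem inv_const {α : Fin n → ℝ} {c : ℝ} (hα : ∀ j, α j = c) (v : Fin n) :
    Inv α v (fun s s' => ∀ u, s u = s' u + if u = v then 1 else 0) := by
  refine ⟨fun s s' h => h, ?_, fun s s' h => by rw [h v]; simp⟩
  intro s s' h X Y _ _ h1 h2 h3
  have e : ∀ s X : Fin n → ℕ, owa α (fun u => s u + X u) =
      c * ((∑ u, s u : ℕ) : ℝ) + c * ((∑ u, X u : ℕ) : ℝ) := by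
    intro s X
    rw [owa_const hα, Finset.sum_add_distrib]
    push_cast
    ring
  rw [e, e] at h1 h2
  simp only [e] at h3
  have hXY : X = Y := by
    rcases h3 with h | h
    · exact h
    · exact absurd ⟨by linarith, by linarith⟩ h
  intro u
  simp only [hXY, h u]
  omega

/-! ### Two voters -/

theorem owa_two (α : Fin 2 → ℝ) (s : Fin 2 → ℕ) :
    owa α s = α 0 * (min (s 0) (s 1) : ℕ) + α 1 * (max (s 0) (s 1) : ℕ) := by
  unfold owa
  rw [Fin.sum_univ_two]
  have h01 : s (Tuple.sort s 0) ≤ s (Tuple.sort s 1) := Tuple.monotone_sort s (by simp)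
  have hs : s (Tuple.sort s 0) + s (Tuple.sort s 1) = s 0 + s 1 := by
    have := Equiv.sum_comp (Tuple.sort s) s
    rwa [Fin.sum_univ_two, Fin.sum_univ_two] at this
  have h0 : s (Tuple.sort s 0) = s 0 ∨ s (Tuple.sort s 0) = s 1 := by
    rcases (by omega : (Tuple.sort s 0 : Fin 2) = 0 ∨ (Tuple.sort s 0 : Fin 2) = 1) with h | h <;>
      rw [h] <;> simp
  rw [show min (s 0) (s 1) = s (Tuple.sort s 0) by omega,
    show max (s 0) (s 1) = s (Tuple.sort s 1) by omega]

/-- the value for two voters -/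
noncomputable def G2 (p q : ℝ) (a b : ℕ) : ℝ := p * (min a b : ℕ) + q * (max a b : ℕ)

theorem two_core {p q : ℝ} (hp : 0 < p) (hq : 0 ≤ q) (hpq : q ≤ p) (a b x1 x2 y1 y2 : ℕ)
    (hx1 : x1 ≤ 1) (hx2 : x2 ≤ 1) (hy1 : y1 ≤ 1) (hy2 : y2 ≤ 1)
    (h1 : G2 p q (a + 1 + y1) (b + y2) ≤ G2 p q (a + 1 + x1) (b + x2))
    (h2 : G2 p q (a + x1) (b + x2) ≤ G2 p q (a + y1) (b + y2))
    (h3 : (x1 = y1 ∧ x2 = y2) ∨ ¬ (G2 p q (a + 1 + y1) (b + y2) = G2 p q (a + 1 + x1) (b + x2) ∧
      G2 p q (a + x1) (b + x2) = G2 p q (a + y1) (b + y2))) : x1 ≤ y1 ∧ y2 ≤ x2 := by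
  rcases h3 with ⟨rfl, rfl⟩ | h3
  · exact ⟨le_rfl, le_rfl⟩
  by_contra hcon
  apply h3
  clear h3
  unfold G2 at *
  have hcases : b + 2 ≤ a ∨ a = b + 1 ∨ b = a ∨ b = a + 1 ∨ b = a + 2 ∨ a + 3 ≤ b := by omega
  have e1 : x1 = 0 ∨ x1 = 1 := by omega
  have e2 : x2 = 0 ∨ x2 = 1 := by omega
  have e3 : y1 = 0 ∨ y1 = 1 := by omega
  have e4 : y2 = 0 ∨ y2 = 1 := by omega
  simp only [Nat.min_def, Nat.max_def] at h1 h2 ⊢
  rcases e1 with rfl | rfl <;> rcases e2 with rfl | rfl <;> rcases e3 with rfl | rfl <;>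
    rcases e4 with rfl | rfl
  all_goals
    first
    | exact absurd (by decide) hcon
    | skip
  all_goals
    rcases hcases with h | rfl | rfl | rfl | rfl | h
  all_goals
    split_ifs at h1 h2 ⊢ <;> first | omega | skip
  all_goals
    push_cast at h1 h2 ⊢
    constructor <;> nlinarith

theorem inv_two {α : Fin 2 → ℝ} (h0 : 0 < α 0) (h1 : 0 ≤ α 1) (h01 : α 1 ≤ α 0) (v : Fin 2) :
    Inv α v (fun s s' => ∀ u, s' u ≤ s u ∧ s u ≤ s' u + 1) := by
  refine ⟨?_, ?_, fun s s' h => (h v).2⟩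
  · intro s s' h u
    rw [h u]
    split_ifs <;> omega
  · intro s s' h X Y hX hY hs hs' hne
    have e : ∀ s : Fin 2 → ℕ, owa α s = G2 (α 0) (α 1) (s 0) (s 1) := fun s => owa_two α s
    have ec : ∀ a b, G2 (α 0) (α 1) a b = G2 (α 0) (α 1) b a := by
      intro a b
      unfold G2
      rw [min_comm, max_comm]
    simp only [e] at hs hs' hne
    have a0 := h 0
    have a1 := h 1
    have x0 := hX 0
    have x1 := hX 1
    have y0 := hY 0
    have y1 := hY 1
    have hXY : X = Y ↔ X 0 = Y 0 ∧ X 1 = Y 1 := by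
      constructor
      · rintro rfl; exact ⟨rfl, rfl⟩
      · rintro ⟨h, h'⟩
        funext u
        rcases (by omega : u = 0 ∨ u = 1) with rfl | rfl
        · exact h
        · exact h'
    rw [hXY] at hne
    -- the four possible differences
    have goal2 : (s' 0 + Y 0 ≤ s 0 + X 0 ∧ s 0 + X 0 ≤ s' 0 + Y 0 + 1) ∧
        (s' 1 + Y 1 ≤ s 1 + X 1 ∧ s 1 + X 1 ≤ s' 1 + Y 1 + 1) := by
      rcases (by omega : s 0 = s' 0 ∨ s 0 = s' 0 + 1) with h0' | h0' <;>
        rcases (by omega : s 1 = s' 1 ∨ s 1 = s' 1 + 1) with h1' | h1'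
      · rw [h0', h1'] at hs hne
        have hxy : X 0 = Y 0 ∧ X 1 = Y 1 := by
          rcases hne with h | h
          · exact h
          · exact absurd ⟨le_antisymm hs hs', le_antisymm hs' hs⟩ h
        omega
      · rw [h0', h1'] at hs hne
        rw [ec (s' 0 + Y 0) (s' 1 + 1 + Y 1), ec (s' 0 + X 0) (s' 1 + 1 + X 1)] at hs hne
        rw [ec (s' 0 + Y 0) (s' 1 + Y 1), ec (s' 0 + X 0) (s' 1 + X 1)] at hs' hne
        have := two_core h0 h1 h01 (s' 1) (s' 0) (X 1) (X 0) (Y 1) (Y 0) x1 x0 y1 y0 hs hs' (by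
          rcases hne with h | h
          · exact Or.inl ⟨h.2, h.1⟩
          · exact Or.inr h)
        omega
      · rw [h0', h1'] at hs hne
        have := two_core h0 h1 h01 (s' 0) (s' 1) (X 0) (X 1) (Y 0) (Y 1) x0 x1 y0 y1 hs hs' hne
        omega
      · rw [h0', h1'] at hs hne
        have tr : ∀ a b, G2 (α 0) (α 1) (a + 1) (b + 1) = G2 (α 0) (α 1) a b + (α 0 + α 1) := by
          intro a b
          unfold G2
          rw [show min (a + 1) (b + 1) = min a b + 1 by omega,
            show max (a + 1) (b + 1) = max a b + 1 by omega]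
          push_cast
          ring
        rw [show s' 0 + 1 + Y 0 = s' 0 + Y 0 + 1 by omega, show s' 1 + 1 + Y 1 = s' 1 + Y 1 + 1 by omega,
          show s' 0 + 1 + X 0 = s' 0 + X 0 + 1 by omega, show s' 1 + 1 + X 1 = s' 1 + X 1 + 1 by omega,
          tr, tr] at hs hne
        have hxy : X 0 = Y 0 ∧ X 1 = Y 1 := by
          rcases hne with h | h
          · exact h
          · exact absurd ⟨by linarith, by linarith⟩ h
        omega
    intro u
    rcases (by omega : u = 0 ∨ u = 1) with rfl | rfl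
    · exact goal2.1
    · exact goal2.2

/-! ### Three voters -/

/-- the value for three voters -/
noncomputable def G3 (q u v : ℝ) (a b c : ℕ) : ℝ :=
  q * ((a + b + c : ℕ) : ℝ) + u * (min a (min b c) : ℕ) - v * (max a (max b c) : ℕ)

theorem owa_three (α : Fin 3 → ℝ) (s : Fin 3 → ℕ) :
    owa α s = G3 (α 1) (α 0 - α 1) (α 1 - α 2) (s 0) (s 1) (s 2) := by
  unfold owa G3
  rw [Fin.sum_univ_three]
  have h01 : s (Tuple.sort s 0) ≤ s (Tuple.sort s 1) := Tuple.monotone_sort s (by simp)
  have h12 : s (Tuple.sort s 1) ≤ s (Tuple.sort s 2) := Tuple.monotone_sort s (by decide)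
  have hs : s (Tuple.sort s 0) + s (Tuple.sort s 1) + s (Tuple.sort s 2) = s 0 + s 1 + s 2 := by
    have := Equiv.sum_comp (Tuple.sort s) s
    rwa [Fin.sum_univ_three, Fin.sum_univ_three] at this
  have hle : ∀ u, s (Tuple.sort s 0) ≤ s u ∧ s u ≤ s (Tuple.sort s 2) := by
    intro u
    obtain ⟨j, rfl⟩ := (Tuple.sort s).surjective u
    exact ⟨Tuple.monotone_sort s (Fin.zero_le j), Tuple.monotone_sort s (Fin.le_last j)⟩
  have a0 := hle 0
  have a1 := hle 1
  have a2 := hle 2
  have f0 : s (Tuple.sort s 0) = s 0 ∨ s (Tuple.sort s 0) = s 1 ∨ s (Tuple.sort s 0) = s 2 := by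
    rcases (by omega : (Tuple.sort s 0 : Fin 3) = 0 ∨ (Tuple.sort s 0 : Fin 3) = 1 ∨
      (Tuple.sort s 0 : Fin 3) = 2) with h | h | h <;> rw [h] <;> simp
  have f2 : s (Tuple.sort s 2) = s 0 ∨ s (Tuple.sort s 2) = s 1 ∨ s (Tuple.sort s 2) = s 2 := by
    rcases (by omega : (Tuple.sort s 2 : Fin 3) = 0 ∨ (Tuple.sort s 2 : Fin 3) = 1 ∨
      (Tuple.sort s 2 : Fin 3) = 2) with h | h | h <;> rw [h] <;> simp
  rw [show min (s 0) (min (s 1) (s 2)) = s (Tuple.sort s 0) by omega,
    show max (s 0) (max (s 1) (s 2)) = s (Tuple.sort s 2) by omega, ← hs]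
  push_cast
  ring

section three

variable {q u v : ℝ} (hu : 0 < u) (hv : 0 < v) (huv : u + v < q)
include hu hv huv

theorem G3_mono1 (a b c : ℕ) : G3 q u v a b c < G3 q u v (a + 1) b c := by
  unfold G3
  have h1 : min a (min b c) ≤ min (a + 1) (min b c) := by omega
  have h2 : max (a + 1) (max b c) ≤ max a (max b c) + 1 := by omega
  have h1' : ((min a (min b c) : ℕ) : ℝ) ≤ (min (a + 1) (min b c) : ℕ) := by exact_mod_cast h1
  have h2' : ((max (a + 1) (max b c) : ℕ) : ℝ) ≤ (max a (max b c) : ℕ) + 1 := by exact_mod_cast h2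
  have h3 := mul_le_mul_of_nonneg_left h1' hu.le
  have h4 := mul_le_mul_of_nonneg_left h2' hv.le
  rw [show a + 1 + b + c = (a + b + c) + 1 by omega]
  push_cast at *
  nlinarith

theorem G3_three (a b c : ℕ) : G3 q u v (a + 1) b c < G3 q u v a (b + 1) (c + 1) := by
  unfold G3
  have h1 : min (a + 1) (min b c) ≤ min a (min (b + 1) (c + 1)) + 1 := by omega
  have h2 : max a (max (b + 1) (c + 1)) ≤ max (a + 1) (max b c) + 1 := by omega
  have h1' : ((min (a + 1) (min b c) : ℕ) : ℝ) ≤ (min a (min (b + 1) (c + 1)) : ℕ) + 1 := by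
    exact_mod_cast h1
  have h2' : ((max a (max (b + 1) (c + 1)) : ℕ) : ℝ) ≤ (max (a + 1) (max b c) : ℕ) + 1 := by
    exact_mod_cast h2
  have h3 := mul_le_mul_of_nonneg_left h1' hu.le
  have h4 := mul_le_mul_of_nonneg_left h2' hv.le
  rw [show a + (b + 1) + (c + 1) = (a + 1 + b + c) + 1 by omega]
  push_cast at *
  nlinarith

omit huv in
theorem G3_swap_le {a b : ℕ} (c : ℕ) (h : a ≤ b) :
    G3 q u v a (b + 1) c ≤ G3 q u v (a + 1) b c := by
  unfold G3
  have h1 : min a (min (b + 1) c) ≤ min (a + 1) (min b c) := by omega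
  have h2 : max (a + 1) (max b c) ≤ max a (max (b + 1) c) := by omega
  have h1' : ((min a (min (b + 1) c) : ℕ) : ℝ) ≤ (min (a + 1) (min b c) : ℕ) := by
    exact_mod_cast h1
  have h2' : ((max (a + 1) (max b c) : ℕ) : ℝ) ≤ (max a (max (b + 1) c) : ℕ) := by
    exact_mod_cast h2
  have h3 := mul_le_mul_of_nonneg_left h1' hu.le
  have h4 := mul_le_mul_of_nonneg_left h2' hv.le
  rw [show a + (b + 1) + c = a + 1 + b + c by omega]
  linarith

omit huv in
theorem G3_swap_lt {a b : ℕ} (c : ℕ) (h : a < b) :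
    G3 q u v a (b + 1) c < G3 q u v (a + 1) b c := by
  unfold G3
  have h1 : min a (min (b + 1) c) ≤ min (a + 1) (min b c) := by omega
  have h2 : max (a + 1) (max b c) ≤ max a (max (b + 1) c) := by omega
  have h3 : min a (min (b + 1) c) < min (a + 1) (min b c) ∨
    max (a + 1) (max b c) < max a (max (b + 1) c) := by omega
  rw [show a + (b + 1) + c = a + 1 + b + c by omega]
  have h1' : ((min a (min (b + 1) c) : ℕ) : ℝ) ≤ (min (a + 1) (min b c) : ℕ) := by
    exact_mod_cast h1
  have h2' : ((max (a + 1) (max b c) : ℕ) : ℝ) ≤ (max a (max (b + 1) c) : ℕ) := by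
    exact_mod_cast h2
  rcases h3 with h3 | h3
  · have h3' : ((min a (min (b + 1) c) : ℕ) : ℝ) < (min (a + 1) (min b c) : ℕ) := by
      exact_mod_cast h3
    have h4 := mul_lt_mul_of_pos_left h3' hu
    have h5 := mul_le_mul_of_nonneg_left h2' hv.le
    linarith
  · have h3' : ((max (a + 1) (max b c) : ℕ) : ℝ) < (max a (max (b + 1) c) : ℕ) := by
      exact_mod_cast h3
    have h4 := mul_lt_mul_of_pos_left h3' hv
    have h5 := mul_le_mul_of_nonneg_left h1' hu.le
    linarith

end three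

theorem G3_comm12 (q u v : ℝ) (a b c : ℕ) : G3 q u v a b c = G3 q u v b a c := by
  unfold G3
  rw [show a + b + c = b + a + c by omega, show min a (min b c) = min b (min a c) by omega,
    show max a (max b c) = max b (max a c) by omega]

theorem G3_comm23 (q u v : ℝ) (a b c : ℕ) : G3 q u v a b c = G3 q u v a c b := by
  unfold G3
  rw [show a + b + c = a + c + b by omega, show min a (min b c) = min a (min c b) by omega,
    show max a (max b c) = max a (max c b) by omega]

theorem three_core {q u v : ℝ} (hu : 0 < u) (hv : 0 < v) (huv : u + v < q)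
    (a b c x1 x2 x3 y1 y2 y3 : ℕ)
    (hx1 : x1 ≤ 1) (hx2 : x2 ≤ 1) (hx3 : x3 ≤ 1) (hy1 : y1 ≤ 1) (hy2 : y2 ≤ 1) (hy3 : y3 ≤ 1)
    (h1 : G3 q u v (a + 1 + y1) (b + y2) (c + y3) ≤ G3 q u v (a + 1 + x1) (b + x2) (c + x3))
    (h2 : G3 q u v (a + x1) (b + x2) (c + x3) ≤ G3 q u v (a + y1) (b + y2) (c + y3))
    (h3 : (x1 = y1 ∧ x2 = y2 ∧ x3 = y3) ∨
      ¬ (G3 q u v (a + 1 + y1) (b + y2) (c + y3) = G3 q u v (a + 1 + x1) (b + x2) (c + x3) ∧
      G3 q u v (a + x1) (b + x2) (c + x3) = G3 q u v (a + y1) (b + y2) (c + y3))) :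
    (x1 = y1 ∧ x2 = y2 ∧ x3 = y3) ∨
    (x1 = 0 ∧ y1 = 1 ∧ ((x2 = y2 + 1 ∧ x3 = y3) ∨ (x2 = y2 ∧ x3 = y3 + 1))) := by
  set G := G3 q u v with hG
  have m1 : ∀ a b c, G a b c < G (a + 1) b c := G3_mono1 hu hv huv
  have m2 : ∀ a b c, G a b c < G a (b + 1) c := by
    intro a b c
    rw [hG, G3_comm12, G3_comm12 q u v a]
    exact m1 b a c
  have m3 : ∀ a b c, G a b c < G a b (c + 1) := by
    intro a b c
    rw [hG, G3_comm23, G3_comm23 q u v a b (c + 1)]
    exact m2 a c b
  have t1 : ∀ a b c, G (a + 1) b c < G a (b + 1) (c + 1) := G3_three hu hv huv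
  have t2 : ∀ a b c, G a (b + 1) c < G (a + 1) b (c + 1) := by
    intro a b c
    rw [hG, G3_comm12, G3_comm12 q u v (a + 1)]
    exact t1 b a c
  have t3 : ∀ a b c, G a b (c + 1) < G (a + 1) (b + 1) c := by
    intro a b c
    rw [hG, G3_comm23, G3_comm23 q u v (a + 1)]
    exact t2 a c b
  -- exchange of 1 and 2
  have s12 : ∀ a b c, G a (b + 1) c ≤ G (a + 1) b c → a ≤ b := by
    intro a b c h
    by_contra hab
    have := G3_swap_lt (q := q) hu hv c (not_le.1 hab)
    rw [G3_comm12, G3_comm12 q u v (b + 1)] at this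
    exact absurd h (not_le.2 this)
  have s12' : ∀ a b c, G (a + 1) b c ≤ G a (b + 1) c → b ≤ a := by
    intro a b c h
    by_contra hab
    exact absurd h (not_le.2 (G3_swap_lt hu hv c (not_le.1 hab)))
  have s13 : ∀ a b c, G a b (c + 1) ≤ G (a + 1) b c → a ≤ c := by
    intro a b c h
    rw [hG, G3_comm23, G3_comm23 q u v (a + 1)] at h
    exact s12 a c b h
  have s13' : ∀ a b c, G (a + 1) b c ≤ G a b (c + 1) → c ≤ a := by
    intro a b c h
    rw [hG, G3_comm23, G3_comm23 q u v a] at h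
    exact s12' a c b h
  have s23 : ∀ a b c, G a b (c + 1) ≤ G a (b + 1) c → b ≤ c := by
    intro a b c h
    rw [hG, G3_comm12, G3_comm12 q u v a] at h
    exact s13 b a c h
  have s23' : ∀ a b c, G a (b + 1) c ≤ G a b (c + 1) → c ≤ b := by
    intro a b c h
    rw [hG, G3_comm12, G3_comm12 q u v a] at h
    exact s13' b a c h
  have eq23 : ∀ a b, G a (b + 1) b = G a b (b + 1) := by
    intro a b
    rw [hG, G3_comm23]
  clear_value G
  have e1 : x1 = 0 ∨ x1 = 1 := by omega
  have e2 : x2 = 0 ∨ x2 = 1 := by omega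
  have e3 : x3 = 0 ∨ x3 = 1 := by omega
  have f1 : y1 = 0 ∨ y1 = 1 := by omega
  have f2 : y2 = 0 ∨ y2 = 1 := by omega
  have f3 : y3 = 0 ∨ y3 = 1 := by omega
  rcases e1 with rfl | rfl <;> rcases e2 with rfl | rfl <;> rcases e3 with rfl | rfl <;>
    rcases f1 with rfl | rfl <;> rcases f2 with rfl | rfl <;> rcases f3 with rfl | rfl
  all_goals
    first
    | exact Or.inl (by decide)
    | exact Or.inr (by decide)
    | exfalso
  all_goals
    simp only [add_zero] at h1 h2 h3
  all_goals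
    have M1 := m1 a b c
    have M2 := m2 a b c
    have M3 := m3 a b c
    have M4 := m1 a (b + 1) c
    have M5 := m1 a b (c + 1)
    have M6 := m1 a (b + 1) (c + 1)
    have M7 := m2 (a + 1) b c
    have M8 := m3 (a + 1) b c
    have M9 := m2 a b (c + 1)
    have M10 := m3 a (b + 1) c
    have M11 := m2 (a + 1) b (c + 1)
    have M12 := m3 (a + 1) (b + 1) c
    have M13 := m1 (a + 1) b c
    have M14 := m1 (a + 1) (b + 1) c
    have M15 := m1 (a + 1) b (c + 1)
    have M16 := m1 (a + 1) (b + 1) (c + 1)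
    have M17 := m2 (a + 1 + 1) b c
    have M18 := m3 (a + 1 + 1) b c
    have M19 := m2 (a + 1 + 1) b (c + 1)
    have M20 := m3 (a + 1 + 1) (b + 1) c
    have T1 := t1 a b c
    have T2 := t1 (a + 1) b c
    have T3 := t2 a b c
    have T4 := t2 (a + 1) b c
    have T5 := t3 a b c
    have T6 := t3 (a + 1) b c
    first
    | (exfalso; linarith)
    | skip
  all_goals
    clear M1 M2 M3 M4 M5 M6 M7 M8 M9 M10 M11 M12 M13 M14 M15 M16 M17 M18 M19 M20 T1 T2 T3 T4 T5 T6
    first
    | (have k1 := s13 _ _ _ h1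
       have k2 := s13' _ _ _ h2
       omega)
    | (have k1 := s12 _ _ _ h1
       have k2 := s12' _ _ _ h2
       omega)
    | (have k1 := s23' _ _ _ h1
       have k2 := s23 _ _ _ h2
       obtain rfl : b = c := by omega
       exact (h3.resolve_left (by simp)) ⟨eq23 _ _, (eq23 _ _).symm⟩)
    | (have k1 := s23 _ _ _ h1
       have k2 := s23' _ _ _ h2
       obtain rfl : b = c := by omega
       exact (h3.resolve_left (by simp)) ⟨(eq23 _ _).symm, eq23 _ _⟩)

theorem inv_three {α : Fin 3 → ℝ} (h01 : α 1 < α 0) (h12 : α 2 < α 1) (h : α 0 < α 1 + α 2)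
    (v : Fin 3) : Inv α v (fun s s' => ∃ j, ∀ u, s u = s' u + if u = j then 1 else 0) := by
  refine ⟨fun s s' h => ⟨v, h⟩, ?_, ?_⟩
  · rintro s s' ⟨i, hi⟩ X Y hX hY hs hs' hne
    -- the other two voters
    obtain ⟨j, k, hij, hik, hjk, hall⟩ : ∃ j k : Fin 3, i ≠ j ∧ i ≠ k ∧ j ≠ k ∧
        ∀ u, u = i ∨ u = j ∨ u = k := by
      rcases (by omega : i = 0 ∨ i = 1 ∨ i = 2) with rfl | rfl | rfl
      · exact ⟨1, 2, by decide, by decide, by decide, by decide⟩
      · exact ⟨0, 2, by decide, by decide, by decide, by decide⟩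
      · exact ⟨0, 1, by decide, by decide, by decide, by decide⟩
    have e : ∀ s : Fin 3 → ℕ, owa α s =
        G3 (α 1) (α 0 - α 1) (α 1 - α 2) (s i) (s j) (s k) := by
      intro s
      rw [owa_three]
      have c12 := G3_comm12 (α 1) (α 0 - α 1) (α 1 - α 2)
      have c23 := G3_comm23 (α 1) (α 0 - α 1) (α 1 - α 2)
      rcases (by omega : i = 0 ∨ i = 1 ∨ i = 2) with rfl | rfl | rfl <;>
        rcases (by omega : j = 0 ∨ j = 1 ∨ j = 2) with rfl | rfl | rfl <;>
        rcases (by omega : k = 0 ∨ k = 1 ∨ k = 2) with rfl | rfl | rfl <;>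
        first
        | exact absurd rfl hij
        | exact absurd rfl hik
        | exact absurd rfl hjk
        | rfl
        | exact c12 _ _ _
        | exact c23 _ _ _
        | exact (c12 _ _ _).trans (c23 _ _ _)
        | exact (c23 _ _ _).trans (c12 _ _ _)
        | exact (c12 _ _ _).trans ((c23 _ _ _).trans (c12 _ _ _))
    have hi' : s i = s' i + 1 := by rw [hi i]; simp
    have hj' : s j = s' j := by rw [hi j]; simp [Ne.symm hij]
    have hk' : s k = s' k := by rw [hi k]; simp [Ne.symm hik]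
    simp only [e, hi', hj', hk'] at hs hs' hne
    have hXY : X = Y ↔ X i = Y i ∧ X j = Y j ∧ X k = Y k := by
      constructor
      · rintro rfl; exact ⟨rfl, rfl, rfl⟩
      · rintro ⟨a, b, c⟩
        funext u
        rcases hall u with rfl | rfl | rfl
        · exact a
        · exact b
        · exact c
    rw [hXY] at hne
    have := three_core (q := α 1) (u := α 0 - α 1) (v := α 1 - α 2) (by linarith) (by linarith)
      (by linarith) (s' i) (s' j) (s' k) (X i) (X j) (X k) (Y i) (Y j) (Y k) (hX i) (hX j) (hX k)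
      (hY i) (hY j) (hY k) hs hs' hne
    rcases this with ⟨a, b, c⟩ | ⟨a, b, ⟨c, d⟩ | ⟨c, d⟩⟩
    · refine ⟨i, fun u => ?_⟩
      have : X = Y := hXY.2 ⟨a, b, c⟩
      simp only [this, hi u]
      omega
    · refine ⟨j, fun u => ?_⟩
      rcases hall u with rfl | rfl | rfl
      · simp only [hij, if_false]; omega
      · simp only [if_true]; omega
      · simp only [Ne.symm hjk, if_false]; omega
    · refine ⟨k, fun u => ?_⟩
      rcases hall u with rfl | rfl | rfl
      · simp only [hik, if_false]; omega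
      · simp only [hjk, if_false]; omega
      · simp only [if_true]; omega
  · rintro s s' ⟨j, hj⟩
    rw [hj v]
    split_ifs <;> omega

end Pool.Agent.Q231.OWA
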